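import Pool.Agent.H37.CPX.Targets

/-!
# Row JEN: values on a larger set
-/

namespace Pool.Agent.H34.CPX

open Finset Pool.Agent.H37.CPX

theorem mem_cyl {N : ℕ} {Q : Type} {U : Finset (Fin N)} {u : U → Q} {A : Finset (Fin N → Q)}
    {x : Fin N → Q} : x ∈ cyl U u A ↔ x ∈ A ∧ ∀ i : U, x i = u i := by
  simp only [cyl, mem_filter]

theorem flat_cyl {N : ℕ} {Q : Type} (T' : Finset (Fin N)) (w : T' → Q) (A : Finset (Fin N → Q)) :
    Flat T' (cyl T' w A) := by
  intro x hx x' hx' i hi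
  rw [(mem_cyl.mp hx).2 ⟨i, hi⟩, (mem_cyl.mp hx').2 ⟨i, hi⟩]

theorem card_flat {N : ℕ} {Q : Type} [Fintype Q] (T : Finset (Fin N)) (A : Finset (Fin N → Q))
    (h : Flat T A) : A.card ≤ Fintype.card Q ^ (N - T.card) := by
  classical
  have h1 : A.card ≤ (univ : Finset ({i : Fin N // i ∉ T} → Q)).card := by
    refine card_le_card_of_injOn (fun x i => x i) (fun _ _ => mem_coe.mpr (mem_univ _)) ?_
    intro x hx x' hx' he
    funext i
    by_cases hi : i ∈ T
    · exact h x hx x' hx' i hi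
    · exact congrFun he ⟨i, hi⟩
  refine h1.trans (le_of_eq ?_)
  rw [card_univ, Fintype.card_fun, Fintype.card_subtype_compl, Fintype.card_fin, Fintype.card_coe]

theorem card_ne {N : ℕ} {Q : Type} [Fintype Q] (T T' : Finset (Fin N)) (A : Finset (Fin N → Q))
    (_hT : T ⊆ T') (h : Flat T A) :
    (univ.filter (fun w : T' → Q => (cyl T' w A).Nonempty)).card ≤
      Fintype.card Q ^ (T' \ T).card := by
  classical
  have h1 : (univ.filter (fun w : T' → Q => (cyl T' w A).Nonempty)).card ≤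
      (univ : Finset ((T' \ T : Finset (Fin N)) → Q)).card := by
    refine card_le_card_of_injOn (fun w i => w ⟨i, (mem_sdiff.mp i.2).1⟩)
      (fun _ _ => mem_coe.mpr (mem_univ _)) ?_
    intro w hw w' hw' he
    obtain ⟨x, hx⟩ := (mem_filter.mp (mem_coe.mp hw)).2
    obtain ⟨x', hx'⟩ := (mem_filter.mp (mem_coe.mp hw')).2
    rw [mem_cyl] at hx hx'
    funext i
    by_cases hi : (i : Fin N) ∈ T
    · rw [← hx.2 i, ← hx'.2 i]
      exact h x hx.1 x' hx'.1 i hi
    · exact congrFun he ⟨i, mem_sdiff.mpr ⟨i.2, hi⟩⟩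
  refine h1.trans (le_of_eq ?_)
  rw [card_univ, Fintype.card_fun, Fintype.card_coe]

theorem sum_cyl {N : ℕ} {Q : Type} [Fintype Q] (T' : Finset (Fin N)) (A : Finset (Fin N → Q)) :
    ∑ w : T' → Q, (cyl T' w A).card = A.card := by
  classical
  have h1 := card_eq_sum_card_fiberwise (f := fun (x : Fin N → Q) (i : T') => x i) (s := A)
    (t := univ) (fun _ _ => mem_coe.mpr (mem_univ _))
  rw [h1]
  refine sum_congr rfl fun w _ => ?_
  congr 1
  ext x
  rw [mem_cyl, mem_filter, funext_iff]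

theorem sum_sqrt {N : ℕ} {Q : Type} [Fintype Q] (b : ℝ) (T T' : Finset (Fin N))
    (A : Finset (Fin N → Q)) (hb : 0 ≤ b) (hq : b ^ 2 = Fintype.card Q) (hT : T ⊆ T')
    (h : Flat T A) :
    ∑ w : T' → Q, Real.sqrt ((cyl T' w A).card) ≤ b ^ (T' \ T).card * Real.sqrt A.card := by
  classical
  set W := univ.filter (fun w : T' → Q => (cyl T' w A).Nonempty) with hW
  have h1 : ∑ w : T' → Q, Real.sqrt ((cyl T' w A).card) =
      ∑ w ∈ W, Real.sqrt ((cyl T' w A).card) := by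
    refine (sum_subset (subset_univ _) fun w _ hw => ?_).symm
    have h2 : ¬ (cyl T' w A).Nonempty := fun h => hw (mem_filter.mpr ⟨mem_univ _, h⟩)
    rw [not_nonempty_iff_eq_empty] at h2
    rw [h2, card_empty, Nat.cast_zero, Real.sqrt_zero]
  have h2 : (∑ w ∈ W, Real.sqrt ((cyl T' w A).card)) ^ 2 ≤
      (W.card : ℝ) * ∑ w ∈ W, Real.sqrt ((cyl T' w A).card) ^ 2 := sq_sum_le_card_mul_sum_sq
  have h3 : ∑ w ∈ W, Real.sqrt ((cyl T' w A).card) ^ 2 ≤ (A.card : ℝ) := by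
    have h4 : ∀ w : T' → Q, Real.sqrt ((cyl T' w A).card) ^ 2 = ((cyl T' w A).card : ℝ) :=
      fun w => Real.sq_sqrt (Nat.cast_nonneg _)
    rw [sum_congr rfl fun w _ => h4 w]
    have h5 : ∑ w ∈ W, ((cyl T' w A).card : ℝ) ≤ ∑ w : T' → Q, ((cyl T' w A).card : ℝ) :=
      sum_le_sum_of_subset_of_nonneg (subset_univ _) fun _ _ _ => Nat.cast_nonneg _
    refine h5.trans (le_of_eq ?_)
    rw [← Nat.cast_sum, sum_cyl]
  have h4 : (W.card : ℝ) ≤ (b ^ (T' \ T).card) ^ 2 := by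
    rw [← pow_mul, mul_comm, pow_mul, hq]
    exact_mod_cast card_ne T T' A hT h
  have h5 : (∑ w ∈ W, Real.sqrt ((cyl T' w A).card)) ^ 2 ≤
      (b ^ (T' \ T).card * Real.sqrt A.card) ^ 2 := by
    rw [mul_pow, Real.sq_sqrt (Nat.cast_nonneg _)]
    refine h2.trans ?_
    exact mul_le_mul h4 h3 (sum_nonneg fun _ _ => sq_nonneg _) (sq_nonneg _)
  rw [h1]
  exact le_of_sq_le_sq h5 (by positivity)

theorem pf_JEN : S_JEN := by
  classical
  intro N Q _ b T T' U A hb hq hT hA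
  refine ⟨fun w => flat_cyl T' w A, ?_, ?_, sum_sqrt b T T' A hb hq hT hA, ?_⟩
  · exact_mod_cast card_flat T A hA
  · exact_mod_cast card_ne T T' A hT hA
  · intro hU
    let res : (T' → Q) → (U → Q) := fun w i => w ⟨i, hU i.2⟩
    have h1 : ∀ w : T' → Q, cyl T' w A = cyl T' w (cyl U (res w) A) := by
      intro w
      ext x
      rw [mem_cyl, mem_cyl, mem_cyl]
      constructor
      · rintro ⟨h1, h2⟩
        exact ⟨⟨h1, fun i => h2 ⟨i, hU i.2⟩⟩, h2⟩
      · rintro ⟨⟨h1, _⟩, h2⟩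
        exact ⟨h1, h2⟩
    have h2 : ∑ w : T' → Q, Real.sqrt ((cyl T' w A).card) =
        ∑ u : U → Q, ∑ w ∈ univ.filter (fun w : T' → Q => res w = u),
          Real.sqrt ((cyl T' w A).card) :=
      (sum_fiberwise univ res fun w => Real.sqrt ((cyl T' w A).card)).symm
    rw [h2, mul_sum]
    refine sum_le_sum fun u _ => ?_
    have h3 : ∑ w ∈ univ.filter (fun w : T' → Q => res w = u), Real.sqrt ((cyl T' w A).card) ≤
        ∑ w : T' → Q, Real.sqrt ((cyl T' w (cyl U u A)).card) := by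
      rw [sum_congr rfl fun w hw => by rw [h1 w, (mem_filter.mp hw).2]]
      exact sum_le_sum_of_subset_of_nonneg (subset_univ _) fun _ _ _ => Real.sqrt_nonneg _
    refine h3.trans ?_
    refine sum_sqrt b (T ∪ U) T' (cyl U u A) hb hq (union_subset hT hU) ?_
    intro x hx x' hx' i hi
    rcases mem_union.mp hi with hi | hi
    · exact hA x (mem_cyl.mp hx).1 x' (mem_cyl.mp hx').1 i hi
    · rw [(mem_cyl.mp hx).2 ⟨i, hi⟩, (mem_cyl.mp hx').2 ⟨i, hi⟩]

end Pool.Agent.H34.CPX
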